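import Mathlib

/-!
# RZ, KP4: polynomials in two variables over the rationals
-/

set_option autoImplicit false

namespace Pool.Agent.Helper92.RZ

open Polynomial Polynomial.Bivariate Finset

theorem mono_induct {P : ℚ[X][Y] → Prop} (hadd : ∀ p q, P p → P q → P (p + q))
    (hmon : ∀ i j r, P (monomial i (monomial j r))) (p : ℚ[X][Y]) : P p := by
  induction p using Polynomial.induction_on' with
  | add p q hp hq => exact hadd p q hp hq
  | monomial n f =>
    induction f using Polynomial.induction_on' with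
    | add f g hf hg => rw [map_add]; exact hadd _ _ hf hg
    | monomial m r => exact hmon n m r

theorem coeff_swap (p : ℚ[X][Y]) (i j : ℕ) : ((swap p).coeff j).coeff i = (p.coeff i).coeff j := by
  induction p using mono_induct with
  | hadd p q hp hq => simp only [map_add, coeff_add, hp, hq]
  | hmon a b r =>
    rw [swap_monomial_monomial, coeff_monomial, coeff_monomial]
    split_ifs with h1 h2 h2
    · rw [coeff_monomial, coeff_monomial, if_pos h2, if_pos h1]
    · rw [coeff_monomial, if_neg h2, coeff_zero]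
    · rw [coeff_monomial, if_neg h1, coeff_zero]
    · rw [coeff_zero, coeff_zero]

theorem natDegree_swap_le_iff (p : ℚ[X][Y]) (A : ℕ) :
    (swap p).natDegree ≤ A ↔ ∀ i, (p.coeff i).natDegree ≤ A := by
  constructor
  · intro h i
    rw [natDegree_le_iff_coeff_eq_zero]
    intro j hj
    rw [← coeff_swap, coeff_eq_zero_of_natDegree_lt (lt_of_le_of_lt h hj), coeff_zero]
  · intro h
    rw [natDegree_le_iff_coeff_eq_zero]
    intro j hj
    ext i
    rw [coeff_swap, coeff_zero]
    exact coeff_eq_zero_of_natDegree_lt (lt_of_le_of_lt (h i) hj)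

/-- The substitution `(x, y) ↦ (α x, β y)`. -/
noncomputable def scl (α β : ℚ) : ℚ[X][Y] →ₐ[ℚ] ℚ[X][Y] := aevalAeval (C (C α * X)) (C (C β) * Y)

theorem scl_monomial (α β r : ℚ) (i j : ℕ) :
    scl α β (monomial i (monomial j r)) = monomial i (monomial j (r * α ^ j * β ^ i)) := by
  have h : (monomial i (monomial j r) : ℚ[X][Y]) = C (C r) * (C X) ^ j * Y ^ i := by
    rw [← C_mul_X_pow_eq_monomial, ← C_mul_X_pow_eq_monomial, C_mul, C_pow]
  rw [h, map_mul, map_mul, map_pow, map_pow]
  have h1 : scl α β (C X) = C (C α * X) := aevalAeval_X _ _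
  have h2 : scl α β Y = C (C β) * Y := aevalAeval_Y _ _
  have h3 : scl α β (C (C r)) = C (C r) := (scl α β).commutes r
  rw [h1, h2, h3, ← C_mul_X_pow_eq_monomial, ← C_mul_X_pow_eq_monomial]
  simp only [C_mul, C_pow, mul_pow]
  ring

theorem coeff_scl (α β : ℚ) (p : ℚ[X][Y]) (i j : ℕ) :
    ((scl α β p).coeff i).coeff j = (p.coeff i).coeff j * α ^ j * β ^ i := by
  induction p using mono_induct with
  | hadd p q hp hq => simp only [map_add, coeff_add, hp, hq]; ring
  | hmon a b r =>
    rw [scl_monomial, coeff_monomial, coeff_monomial]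
    split_ifs with h1
    · rw [coeff_monomial, coeff_monomial]
      split_ifs with h2
      · rw [h1, h2]
      · ring
    · simp

theorem evalEval_scl (α β x y : ℚ) (p : ℚ[X][Y]) :
    (scl α β p).evalEval x y = p.evalEval (α * x) (β * y) := by
  induction p using mono_induct with
  | hadd p q hp hq => simp only [map_add, evalEval_add, hp, hq]
  | hmon a b r =>
    rw [scl_monomial]
    simp only [evalEval, eval_monomial, eval_mul, eval_pow, eval_C]
    ring

theorem scl_scl_inv {α β : ℚ} (hα : α ≠ 0) (hβ : β ≠ 0) (p : ℚ[X][Y]) : scl α β (scl α⁻¹ β⁻¹ p) = p := by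
  ext i j
  rw [coeff_scl, coeff_scl]
  have h1 : α⁻¹ ^ j * α ^ j = 1 := by rw [← mul_pow, inv_mul_cancel₀ hα, one_pow]
  have h2 : β⁻¹ ^ i * β ^ i = 1 := by rw [← mul_pow, inv_mul_cancel₀ hβ, one_pow]
  calc (p.coeff i).coeff j * α⁻¹ ^ j * β⁻¹ ^ i * α ^ j * β ^ i
      = (p.coeff i).coeff j * (α⁻¹ ^ j * α ^ j) * (β⁻¹ ^ i * β ^ i) := by ring
    _ = _ := by rw [h1, h2, mul_one, mul_one]

/-- The substitution as an automorphism. -/
noncomputable def sclE {α β : ℚ} (hα : α ≠ 0) (hβ : β ≠ 0) : ℚ[X][Y] ≃* ℚ[X][Y] where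
  toFun := scl α β
  invFun := scl α⁻¹ β⁻¹
  left_inv p := by
    have := scl_scl_inv (inv_ne_zero hα) (inv_ne_zero hβ) p
    rwa [inv_inv, inv_inv] at this
  right_inv p := scl_scl_inv hα hβ p
  map_mul' p q := map_mul _ p q

theorem irreducible_scl {α β : ℚ} (hα : α ≠ 0) (hβ : β ≠ 0) {p : ℚ[X][Y]} (hp : Irreducible p) :
    Irreducible (scl α β p) :=
  (MulEquiv.irreducible_iff (sclE hα hβ)).2 hp

theorem natDegree_scl_le (α β : ℚ) (p : ℚ[X][Y]) : (scl α β p).natDegree ≤ p.natDegree := by
  rw [natDegree_le_iff_coeff_eq_zero]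
  intro i hi
  ext j
  rw [coeff_scl, coeff_eq_zero_of_natDegree_lt hi]
  simp

theorem natDegree_coeff_scl_le (α β : ℚ) (p : ℚ[X][Y]) (i : ℕ) :
    ((scl α β p).coeff i).natDegree ≤ (p.coeff i).natDegree := by
  rw [natDegree_le_iff_coeff_eq_zero]
  intro j hj
  rw [coeff_scl, coeff_eq_zero_of_natDegree_lt hj, zero_mul, zero_mul]

/-- A determinant of polynomials of degree at most `A`. -/
theorem natDegree_det_le {ι : Type} [Fintype ι] [DecidableEq ι] (M : Matrix ι ι ℚ[X]) (A : ℕ)
    (hM : ∀ i j, (M i j).natDegree ≤ A) : M.det.natDegree ≤ Fintype.card ι * A := by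
  rw [Matrix.det_apply]
  refine natDegree_sum_le_of_forall_le _ _ fun σ _ => ?_
  refine (natDegree_smul_le _ _).trans ?_
  refine (natDegree_prod_le _ _).trans ?_
  calc ∑ i, (M (σ i) i).natDegree ≤ ∑ _i : ι, A := Finset.sum_le_sum fun i _ => hM _ _
    _ = Fintype.card ι * A := by rw [Finset.sum_const, Finset.card_univ, smul_eq_mul]

theorem natDegree_resultant_le (f g : ℚ[X][Y]) (A m n : ℕ) (hf : ∀ i, (f.coeff i).natDegree ≤ A)
    (hg : ∀ i, (g.coeff i).natDegree ≤ A) : (resultant f g m n).natDegree ≤ (m + n) * A := by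
  have h := natDegree_det_le (sylvester f g m n) A fun i j => by
    rw [sylvester, Matrix.of_apply]
    refine Fin.addCases (fun j1 => ?_) (fun j1 => ?_) j
    · rw [Fin.addCases_left]
      split_ifs
      · exact hg _
      · simp
    · rw [Fin.addCases_right]
      split_ifs
      · exact hf _
      · simp
  rwa [Fintype.card_fin] at h

theorem resultant_ne_zero_of_irreducible {f g : ℚ[X][Y]} (hf : Irreducible f) (hg : Irreducible g)
    (hfg : ¬ Associated f g) (h1 : f.natDegree ≠ 0) (h2 : g.natDegree ≠ 0) : resultant f g ≠ 0 := by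
  let K := FractionRing ℚ[X]
  let φ := algebraMap ℚ[X] K
  have hφ : Function.Injective φ := IsFractionRing.injective ℚ[X] K
  have pf : f.IsPrimitive := hf.isPrimitive h1
  have pg : g.IsPrimitive := hg.isPrimitive h2
  have if' : Irreducible (f.map φ) := (pf.irreducible_iff_irreducible_map_fraction_map).1 hf
  have hnd : ¬ f.map φ ∣ g.map φ := by
    intro h
    have h3 := (pf.dvd_iff_fraction_map_dvd_fraction_map K).2 h
    exact hfg (hf.associated_of_dvd hg h3)
  have hco : IsCoprime (f.map φ) (g.map φ) := (if'.coprime_iff_not_dvd).2 hnd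
  have h4 : resultant (f.map φ) (g.map φ) ≠ 0 := by
    intro h
    exact (resultant_eq_zero_iff.1 h).2 hco
  rw [natDegree_map_eq_of_injective hφ, natDegree_map_eq_of_injective hφ, resultant_map_map] at h4
  exact fun h => h4 (by rw [h, map_zero])

/-- Two irreducible polynomials which are not associated have few common zeros. -/
theorem bezout {f g : ℚ[X][Y]} (hf : Irreducible f) (hg : Irreducible g) (hfg : ¬ Associated f g) {A B : ℕ}
    (f1 : f.natDegree ≤ B) (f2 : ∀ i, (f.coeff i).natDegree ≤ A) (g1 : g.natDegree ≤ B)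
    (g2 : ∀ i, (g.coeff i).natDegree ≤ A) (S : Finset ℚ)
    (hS : ∀ x ∈ S, ∃ y, f.evalEval x y = 0 ∧ g.evalEval x y = 0) : S.card ≤ 2 * A * B + A := by
  classical
  have key : ∀ r : ℚ[X], r ≠ 0 → (∀ x ∈ S, r.eval x = 0) → S.card ≤ r.natDegree := by
    intro r hr hx
    refine le_trans (Finset.card_le_card (t := r.roots.toFinset) fun x hx' => ?_)
      (r.roots.toFinset_card_le.trans r.card_roots')
    rw [Multiset.mem_toFinset, mem_roots hr]
    exact hx x hx'
  by_cases h1 : f.natDegree = 0
  · rw [natDegree_eq_zero] at h1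
    obtain ⟨r, rfl⟩ := h1
    have hr : r ≠ 0 := by
      rintro rfl
      exact hf.ne_zero (by simp)
    have h3 := key r hr fun x hx => by
      obtain ⟨y, hy, -⟩ := hS x hx
      rwa [evalEval_C] at hy
    have h4 := f2 0
    rw [coeff_C_zero] at h4
    omega
  by_cases h2 : g.natDegree = 0
  · rw [natDegree_eq_zero] at h2
    obtain ⟨r, rfl⟩ := h2
    have hr : r ≠ 0 := by
      rintro rfl
      exact hg.ne_zero (by simp)
    have h3 := key r hr fun x hx => by
      obtain ⟨y, -, hy⟩ := hS x hx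
      rwa [evalEval_C] at hy
    have h4 := g2 0
    rw [coeff_C_zero] at h4
    omega
  obtain ⟨p, q, -, -, hpq⟩ := exists_mul_add_mul_eq_C_resultant f g le_rfl le_rfl (Or.inl h1)
  have h3 := key _ (resultant_ne_zero_of_irreducible hf hg hfg h1 h2) fun x hx => by
    obtain ⟨y, hy, hy'⟩ := hS x hx
    have := congrArg (evalEval x y) hpq
    rw [evalEval_add, evalEval_mul, evalEval_mul, hy, hy', zero_mul, zero_mul, add_zero, evalEval_C] at this
    exact this.symm
  have h4 := natDegree_resultant_le f g A f.natDegree g.natDegree f2 g2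
  have h5 : (f.natDegree + g.natDegree) * A ≤ (B + B) * A := Nat.mul_le_mul_right _ (by omega)
  calc S.card ≤ _ := h3
    _ ≤ _ := h4
    _ ≤ (B + B) * A := h5
    _ ≤ 2 * A * B + A := by nlinarith

theorem isUnit_of_degrees {p : ℚ[X][Y]} (hp : p ≠ 0) (h1 : p.natDegree = 0) (h2 : (swap p).natDegree = 0) :
    IsUnit p := by
  rw [natDegree_eq_zero] at h1
  obtain ⟨r, rfl⟩ := h1
  have h3 := (natDegree_swap_le_iff (C r) 0).1 h2.le 0
  rw [coeff_C_zero, Nat.le_zero, natDegree_eq_zero] at h3
  obtain ⟨s, rfl⟩ := h3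
  have hs : s ≠ 0 := by
    rintro rfl
    exact hp (by simp)
  exact ((hs.isUnit.map C).map C)

/-- An irreducible factor with many zeros. -/
theorem exists_factor (d : ℕ) : ∀ (p : ℚ[X][Y]), p ≠ 0 → p.natDegree + (swap p).natDegree ≤ d →
    ∀ {ι : Type} (U : Finset ι) (x y : ι → ℚ), U.Nonempty → (∀ i ∈ U, p.evalEval (x i) (y i) = 0) →
    ∃ q, Irreducible q ∧ q ∣ p ∧ U.card ≤ d * (U.filter (fun i => q.evalEval (x i) (y i) = 0)).card := by
  induction d using Nat.strong_induction_on with
  | _ d ih =>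
  intro p hp hd ι U x y hU h0
  classical
  by_cases hirr : Irreducible p
  · refine ⟨p, hirr, dvd_rfl, ?_⟩
    have hd0 : 1 ≤ d := by
      by_contra hcon
      exact hirr.not_isUnit (isUnit_of_degrees hp (by omega) (by omega))
    rw [Finset.filter_true_of_mem h0]
    exact Nat.le_mul_of_pos_left _ hd0
  have hnu : ¬ IsUnit p := by
    intro hu
    obtain ⟨i, hi⟩ := hU
    have := (hu.map (evalEvalRingHom (x i) (y i))).ne_zero
    exact this (h0 i hi)
  rw [irreducible_iff] at hirr
  push Not at hirr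
  obtain ⟨a, b, hab, ha, hb⟩ := hirr hnu
  have ha0 : a ≠ 0 := by
    rintro rfl
    exact hp (by rw [hab, zero_mul])
  have hb0 : b ≠ 0 := by
    rintro rfl
    exact hp (by rw [hab, mul_zero])
  have hsa : swap a ≠ 0 := (map_ne_zero_iff _ (swap (R := ℚ)).injective).2 ha0
  have hsb : swap b ≠ 0 := (map_ne_zero_iff _ (swap (R := ℚ)).injective).2 hb0
  have hd1 : p.natDegree = a.natDegree + b.natDegree := by rw [hab, natDegree_mul ha0 hb0]
  have hd2 : (swap p).natDegree = (swap a).natDegree + (swap b).natDegree := by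
    rw [hab, map_mul, natDegree_mul hsa hsb]
  set da := a.natDegree + (swap a).natDegree with hda
  set db := b.natDegree + (swap b).natDegree with hdb
  have ha1 : 1 ≤ da := by
    by_contra hcon
    exact ha (isUnit_of_degrees ha0 (by omega) (by omega))
  have hb1 : 1 ≤ db := by
    by_contra hcon
    exact hb (isUnit_of_degrees hb0 (by omega) (by omega))
  have hdab : da + db ≤ d := by omega
  have step : ∀ e : ℚ[X][Y], e ≠ 0 → e ∣ p → e.natDegree + (swap e).natDegree < d →
      ∃ q, (U.filter (fun i => e.evalEval (x i) (y i) = 0)).card ≤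
        (e.natDegree + (swap e).natDegree) * (U.filter (fun i => q.evalEval (x i) (y i) = 0)).card ∧
        ((U.filter (fun i => e.evalEval (x i) (y i) = 0)).Nonempty → Irreducible q ∧ q ∣ p) := by
    intro e he hep hlt
    by_cases hne : (U.filter (fun i => e.evalEval (x i) (y i) = 0)).Nonempty
    · obtain ⟨q, hq, hqe, hc⟩ := ih _ hlt e he le_rfl (U.filter (fun i => e.evalEval (x i) (y i) = 0)) x y hne
        fun i hi => (Finset.mem_filter.1 hi).2
      refine ⟨q, hc.trans (Nat.mul_le_mul_left _ (Finset.card_le_card ?_)), fun _ => ⟨hq, hqe.trans hep⟩⟩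
      intro i hi
      rw [Finset.mem_filter, Finset.mem_filter] at hi
      exact Finset.mem_filter.2 ⟨hi.1.1, hi.2⟩
    · refine ⟨0, ?_, fun h => absurd h hne⟩
      rw [Finset.not_nonempty_iff_eq_empty.1 hne, Finset.card_empty]
      exact Nat.zero_le _
  obtain ⟨qa, hqa, hqa'⟩ := step a ha0 ⟨b, hab⟩ (by omega)
  obtain ⟨qb, hqb, hqb'⟩ := step b hb0 ⟨a, by rw [hab, mul_comm]⟩ (by omega)
  have hcov : U ⊆ U.filter (fun i => a.evalEval (x i) (y i) = 0) ∪ U.filter (fun i => b.evalEval (x i) (y i) = 0) := by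
    intro i hi
    have := h0 i hi
    rw [hab, evalEval_mul, mul_eq_zero] at this
    rw [Finset.mem_union, Finset.mem_filter, Finset.mem_filter]
    exact this.imp (fun h => ⟨hi, h⟩) fun h => ⟨hi, h⟩
  have hcard := (Finset.card_le_card hcov).trans (Finset.card_union_le _ _)
  set za := (U.filter (fun i => qa.evalEval (x i) (y i) = 0)).card
  set zb := (U.filter (fun i => qb.evalEval (x i) (y i) = 0)).card
  have hUpos : 0 < U.card := hU.card_pos
  rcases Finset.eq_empty_or_nonempty (U.filter (fun i => a.evalEval (x i) (y i) = 0)) with hEa | hNa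
  · rcases Finset.eq_empty_or_nonempty (U.filter (fun i => b.evalEval (x i) (y i) = 0)) with hEb | hNb
    · rw [hEa, hEb, Finset.card_empty] at hcard
      omega
    · refine ⟨qb, (hqb' hNb).1, (hqb' hNb).2, ?_⟩
      rw [hEa, Finset.card_empty, zero_add] at hcard
      calc U.card ≤ db * zb := hcard.trans hqb
        _ ≤ d * zb := Nat.mul_le_mul_right _ (by omega)
  · rcases Finset.eq_empty_or_nonempty (U.filter (fun i => b.evalEval (x i) (y i) = 0)) with hEb | hNb
    · refine ⟨qa, (hqa' hNa).1, (hqa' hNa).2, ?_⟩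
      rw [hEb, Finset.card_empty, add_zero] at hcard
      calc U.card ≤ da * za := hcard.trans hqa
        _ ≤ d * za := Nat.mul_le_mul_right _ (by omega)
    · rcases le_total za zb with hz | hz
      · refine ⟨qb, (hqb' hNb).1, (hqb' hNb).2, ?_⟩
        calc U.card ≤ da * za + db * zb := hcard.trans (Nat.add_le_add hqa hqb)
          _ ≤ da * zb + db * zb := Nat.add_le_add_right (Nat.mul_le_mul_left _ hz) _
          _ = (da + db) * zb := by ring
          _ ≤ d * zb := Nat.mul_le_mul_right _ hdab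
      · refine ⟨qa, (hqa' hNa).1, (hqa' hNa).2, ?_⟩
        calc U.card ≤ da * za + db * zb := hcard.trans (Nat.add_le_add hqa hqb)
          _ ≤ da * za + db * za := Nat.add_le_add_left (Nat.mul_le_mul_left _ hz) _
          _ = (da + db) * za := by ring
          _ ≤ d * za := Nat.mul_le_mul_right _ hdab

end Pool.Agent.Helper92.RZ
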