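import Pool.Agent.Helper92.RZ.Biv

/-!
# RZ, KP4: many zeros of one polynomial in a product set give a multiplicative relation
-/

set_option autoImplicit false

namespace Pool.Agent.Helper92.RZ

open Polynomial Polynomial.Bivariate Finset

/-- The polynomial with the coefficients `c`. -/
noncomputable def pol {A B : ℕ} (c : Fin (A + 1) × Fin (B + 1) → ℚ) : ℚ[X][Y] :=
  ∑ t, monomial (t.2 : ℕ) (monomial (t.1 : ℕ) (c t))

theorem evalEval_pol {A B : ℕ} (c : Fin (A + 1) × Fin (B + 1) → ℚ) (x y : ℚ) :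
    (pol c).evalEval x y = ∑ t, c t * x ^ (t.1 : ℕ) * y ^ (t.2 : ℕ) := by
  rw [pol, evalEval_finsetSum]
  refine Finset.sum_congr rfl fun t _ => ?_
  simp only [evalEval, eval_monomial, eval_mul, eval_pow, eval_C]

theorem coeff_pol {A B : ℕ} (c : Fin (A + 1) × Fin (B + 1) → ℚ) (a : Fin (A + 1)) (b : Fin (B + 1)) :
    ((pol c).coeff b).coeff a = c (a, b) := by
  rw [pol, finsetSum_coeff, finsetSum_coeff, Finset.sum_eq_single (a, b)]
  · simp
  · rintro ⟨a', b'⟩ - hne
    rw [coeff_monomial]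
    split_ifs with h1
    · rw [coeff_monomial]
      split_ifs with h2
      · exact absurd (Prod.ext (Fin.ext h2) (Fin.ext h1)) hne
      · rfl
    · rfl
  · intro h
    exact absurd (Finset.mem_univ _) h

theorem pol_ne_zero {A B : ℕ} {c : Fin (A + 1) × Fin (B + 1) → ℚ} (hc : c ≠ 0) : pol c ≠ 0 := by
  intro h
  apply hc
  funext t
  have := coeff_pol c t.1 t.2
  rw [h, coeff_zero, coeff_zero] at this
  exact this.symm

theorem natDegree_pol_le {A B : ℕ} (c : Fin (A + 1) × Fin (B + 1) → ℚ) : (pol c).natDegree ≤ B := by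
  refine natDegree_sum_le_of_forall_le _ _ fun t _ => ?_
  refine (natDegree_monomial_le _).trans ?_
  have := t.2.isLt
  omega

theorem natDegree_coeff_pol_le {A B : ℕ} (c : Fin (A + 1) × Fin (B + 1) → ℚ) (i : ℕ) :
    ((pol c).coeff i).natDegree ≤ A := by
  rw [pol, finsetSum_coeff]
  refine natDegree_sum_le_of_forall_le _ _ fun t _ => ?_
  rw [coeff_monomial]
  split_ifs
  · refine (natDegree_monomial_le _).trans ?_
    have := t.1.isLt
    omega
  · simp

/-- An irreducible polynomial with a zero outside the axes has at least two monomials. -/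
theorem exists_two {q : ℚ[X][Y]} (hq : q ≠ 0) {x y : ℚ} (hx : x ≠ 0) (hy : y ≠ 0) (h0 : q.evalEval x y = 0) :
    ∃ a b a' b', (a ≠ a' ∨ b ≠ b') ∧ (q.coeff b).coeff a ≠ 0 ∧ (q.coeff b').coeff a' ≠ 0 := by
  obtain ⟨b, hb⟩ : ∃ b, q.coeff b ≠ 0 := by
    by_contra hcon
    push Not at hcon
    exact hq (Polynomial.ext fun b => by rw [hcon b, coeff_zero])
  obtain ⟨a, ha⟩ : ∃ a, (q.coeff b).coeff a ≠ 0 := by
    by_contra hcon
    push Not at hcon
    exact hb (Polynomial.ext fun b => by rw [hcon b, coeff_zero])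
  by_contra hcon
  push Not at hcon
  have hmono : q = monomial b (monomial a ((q.coeff b).coeff a)) := by
    ext b' a'
    rw [coeff_monomial]
    split_ifs with h1
    · subst h1
      rw [coeff_monomial]
      split_ifs with h2
      · rw [h2]
      · exact hcon a b a' b (Or.inl h2) ha
    · rw [coeff_zero]
      exact hcon a b a' b' (Or.inr h1) ha
  rw [hmono] at h0
  simp only [evalEval, eval_monomial, eval_mul, eval_pow, eval_C] at h0
  exact (mul_ne_zero (mul_ne_zero ha (pow_ne_zero _ hx)) (pow_ne_zero _ hy)) h0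

/-- The relation between two substitutions which give associated polynomials. -/
theorem relation {q : ℚ[X][Y]} (hq : q ≠ 0) {A B : ℕ} (q1 : q.natDegree ≤ B)
    (q2 : ∀ i, (q.coeff i).natDegree ≤ A) {x y : ℚ} (hx : x ≠ 0) (hy : y ≠ 0) (h0 : q.evalEval x y = 0)
    {α β α' β' : ℚ} (hα' : α' ≠ 0) (hβ' : β' ≠ 0) (hα : α ≠ 0) (hβ : β ≠ 0)
    (hass : Associated (scl α β q) (scl α' β' q)) :
    ∃ a b : ℤ, (a ≠ 0 ∨ b ≠ 0) ∧ |a| ≤ A ∧ |b| ≤ B ∧ (α / α') ^ a * (β / β') ^ b = 1 := by
  obtain ⟨a, b, a', b', hne, hab, hab'⟩ := exists_two hq hx hy h0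
  obtain ⟨u, hu⟩ := hass
  obtain ⟨v, hv, hv'⟩ := Polynomial.isUnit_iff.1 u.isUnit
  obtain ⟨w, hw, hw'⟩ := Polynomial.isUnit_iff.1 hv
  rw [← hv', ← hw'] at hu
  have hcoef : ∀ i j, (q.coeff i).coeff j ≠ 0 → (α / α') ^ j * (β / β') ^ i * w = 1 := by
    intro i j hij
    have := congrArg (fun p => (p.coeff i).coeff j) hu
    simp only [coeff_mul_C, coeff_scl] at this
    have h1 : (α / α') ^ j * (β / β') ^ i * w = (α ^ j * β ^ i * w) / (α' ^ j * β' ^ i) := by
      rw [div_pow, div_pow, div_mul_div_comm, div_mul_eq_mul_div]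
    rw [h1, div_eq_one_iff_eq (mul_ne_zero (pow_ne_zero _ hα') (pow_ne_zero _ hβ'))]
    apply mul_left_cancel₀ hij
    linarith
  have hle : ∀ i j, (q.coeff i).coeff j ≠ 0 → i ≤ B ∧ j ≤ A := by
    intro i j hij
    constructor
    · refine (le_natDegree_of_ne_zero ?_).trans q1
      intro h
      rw [h, coeff_zero] at hij
      exact hij rfl
    · exact (le_natDegree_of_ne_zero hij).trans (q2 i)
  have e1 := hcoef b a hab
  have e2 := hcoef b' a' hab'
  have l1 := hle b a hab
  have l2 := hle b' a' hab'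
  have hα1 : α / α' ≠ 0 := div_ne_zero hα hα'
  have hβ1 : β / β' ≠ 0 := div_ne_zero hβ hβ'
  have hw0 : w ≠ 0 := hw.ne_zero
  refine ⟨(a : ℤ) - a', (b : ℤ) - b', ?_, ?_, ?_, ?_⟩
  · rcases hne with h | h
    · left; omega
    · right; omega
  · rw [abs_le]; constructor <;> omega
  · rw [abs_le]; constructor <;> omega
  · rw [zpow_sub₀ hα1, zpow_sub₀ hβ1, zpow_natCast, zpow_natCast, zpow_natCast, zpow_natCast,
      div_mul_div_comm, div_eq_one_iff_eq (mul_ne_zero (pow_ne_zero _ hα1) (pow_ne_zero _ hβ1))]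
    exact mul_right_cancel₀ hw0 (e1.trans e2.symm)

/-- KP4. -/
theorem two_poly {κ : Type} [Fintype κ] [DecidableEq κ] (A B s : ℕ) (ρ ε : κ → ℚ)
    (hρ : ∀ i, ρ i ≠ 0) (hε : ∀ i, ε i ≠ 0) (U : Finset (κ × κ)) (c : Fin (A + 1) × Fin (B + 1) → ℚ) (hc : c ≠ 0)
    (h0 : ∀ p ∈ U, ∑ t, c t * (ρ p.1 * ρ p.2) ^ (t.1 : ℕ) * (ε p.1 * ε p.2) ^ (t.2 : ℕ) = 0)
    (hs : ∀ i, (univ.filter (fun j => ρ j = ρ i)).card ≤ s)
    (hbig : (A + B) ^ 2 * Fintype.card κ ^ 3 * s * (2 * A * B + A + 1) < U.card ^ 2) :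
    ∃ i j l, (i, l) ∈ U ∧ (j, l) ∈ U ∧ ρ i ≠ ρ j ∧ ∃ a b : ℤ, (a ≠ 0 ∨ b ≠ 0) ∧ |a| ≤ A ∧ |b| ≤ B ∧
      (ρ i / ρ j) ^ a * (ε i / ε j) ^ b = 1 := by
  classical
  have hU : U.Nonempty := by
    rw [Finset.nonempty_iff_ne_empty]
    rintro rfl
    simp at hbig
  have hp0 := pol_ne_zero hc
  have hsp0 : swap (pol c) ≠ 0 := (map_ne_zero_iff _ (swap (R := ℚ)).injective).2 hp0
  have hpx := (natDegree_swap_le_iff (pol c) A).2 (natDegree_coeff_pol_le c)
  obtain ⟨q, hq, hqp, hUq⟩ := exists_factor (A + B) (pol c) hp0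
    (by have := natDegree_pol_le c; omega) U (fun p => ρ p.1 * ρ p.2) (fun p => ε p.1 * ε p.2) hU
    fun p hp => by
      rw [evalEval_pol]
      exact h0 p hp
  have q1 : q.natDegree ≤ B := (natDegree_le_of_dvd hqp hp0).trans (natDegree_pol_le c)
  have q2 : ∀ i, (q.coeff i).natDegree ≤ A :=
    (natDegree_swap_le_iff q A).1 ((natDegree_le_of_dvd (map_dvd swap hqp) hsp0).trans hpx)
  set U' := U.filter (fun p => q.evalEval (ρ p.1 * ρ p.2) (ε p.1 * ε p.2) = 0) with hU'
  let com : κ → κ → Finset κ := fun i j => univ.filter (fun l => (i, l) ∈ U' ∧ (j, l) ∈ U')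
  let N : ℕ := (2 * A * B + A) * s
  -- a pair with many common partners
  have hex : ∃ i j, ρ i ≠ ρ j ∧ N < (com i j).card := by
    by_contra hcon
    push Not at hcon
    let f : κ → ℕ := fun l => (univ.filter (fun i => (i, l) ∈ U')).card
    have hf1 : U'.card = ∑ l, f l := by
      rw [Finset.card_eq_sum_card_fiberwise (f := Prod.snd) (t := univ) (fun _ _ => Finset.mem_univ _)]
      refine Finset.sum_congr rfl fun l _ => ?_
      refine Finset.card_bij' (fun p _ => p.1) (fun i _ => (i, l)) ?_ ?_ ?_ ?_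
      · rintro ⟨i, l'⟩ hp
        rw [Finset.mem_filter] at hp
        obtain ⟨hp1, rfl⟩ := hp
        exact Finset.mem_filter.2 ⟨Finset.mem_univ _, hp1⟩
      · intro i hi
        rw [Finset.mem_filter] at hi
        exact Finset.mem_filter.2 ⟨hi.2, rfl⟩
      · rintro ⟨i, l'⟩ hp
        rw [Finset.mem_filter] at hp
        obtain ⟨hp1, rfl⟩ := hp
        rfl
      · intro i hi
        rfl
    have hf2 : ∑ l, f l ^ 2 = ∑ p : κ × κ, (com p.1 p.2).card := by
      have h1 : ∀ l, f l ^ 2 = (univ.filter (fun p : κ × κ => (p.1, l) ∈ U' ∧ (p.2, l) ∈ U')).card := by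
        intro l
        rw [sq, ← Finset.card_product]
        congr 1
        ext p
        simp [Finset.mem_product]
      simp only [h1, com, Finset.card_filter]
      rw [Finset.sum_comm]
    have hcs : (∑ l, f l) ^ 2 ≤ Fintype.card κ * ∑ l, f l ^ 2 := by
      have := sq_sum_le_card_mul_sum_sq (s := (univ : Finset κ)) (f := fun l => (f l : ℤ))
      rw [Finset.card_univ] at this
      exact_mod_cast this
    have hsum : ∑ p : κ × κ, (com p.1 p.2).card ≤ Fintype.card κ ^ 2 * N + Fintype.card κ * (s * Fintype.card κ) := by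
      calc ∑ p : κ × κ, (com p.1 p.2).card
          ≤ ∑ p : κ × κ, (N + if ρ p.2 = ρ p.1 then Fintype.card κ else 0) := by
            refine Finset.sum_le_sum fun p _ => ?_
            split_ifs with h
            · have := Finset.card_le_univ (com p.1 p.2)
              omega
            · rw [add_zero]
              exact hcon p.1 p.2 (Ne.symm h)
        _ = Fintype.card κ ^ 2 * N + ∑ i : κ, ∑ j : κ, (if ρ j = ρ i then Fintype.card κ else 0) := by
            rw [Finset.sum_add_distrib, Finset.sum_const, Finset.card_univ, Fintype.card_prod, smul_eq_mul,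
              Fintype.sum_prod_type]
            ring
        _ ≤ Fintype.card κ ^ 2 * N + ∑ _i : κ, s * Fintype.card κ := by
            refine Nat.add_le_add_left (Finset.sum_le_sum fun i _ => ?_) _
            rw [← Finset.sum_filter, Finset.sum_const, smul_eq_mul]
            exact Nat.mul_le_mul_right _ (hs i)
        _ = _ := by rw [Finset.sum_const, Finset.card_univ, smul_eq_mul]
    have h3 : U'.card ^ 2 ≤ Fintype.card κ * (Fintype.card κ ^ 2 * N + Fintype.card κ * (s * Fintype.card κ)) := by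
      rw [hf1]
      exact hcs.trans (Nat.mul_le_mul_left _ (hf2 ▸ hsum))
    have h4 : U.card ^ 2 ≤ ((A + B) * U'.card) ^ 2 := Nat.pow_le_pow_left hUq 2
    have h5 : ((A + B) * U'.card) ^ 2 ≤ (A + B) ^ 2 * (Fintype.card κ *
        (Fintype.card κ ^ 2 * N + Fintype.card κ * (s * Fintype.card κ))) := by
      rw [mul_pow]
      exact Nat.mul_le_mul_left _ h3
    have h6 : (A + B) ^ 2 * (Fintype.card κ * (Fintype.card κ ^ 2 * N + Fintype.card κ * (s * Fintype.card κ))) =
        (A + B) ^ 2 * Fintype.card κ ^ 3 * s * (2 * A * B + A + 1) := by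
      simp only [N]
      ring
    omega
  obtain ⟨i, j, hij, hN⟩ := hex
  have hcomne : (com i j).Nonempty := by
    rw [← Finset.card_pos]
    omega
  obtain ⟨l0, hl0⟩ := hcomne
  have hl0' := (Finset.mem_filter.1 hl0).2
  refine ⟨i, j, l0, (Finset.mem_filter.1 hl0'.1).1, (Finset.mem_filter.1 hl0'.2).1, hij, ?_⟩
  have hcard : (com i j).card ≤ s * ((com i j).image ρ).card := by
    refine Finset.card_le_mul_card_image _ s fun x hx => ?_
    rw [Finset.mem_image] at hx
    obtain ⟨l, -, rfl⟩ := hx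
    refine le_trans (Finset.card_le_card fun l' hl' => ?_) (hs l)
    rw [Finset.mem_filter] at hl' ⊢
    exact ⟨Finset.mem_univ _, hl'.2⟩
  have hS : 2 * A * B + A < ((com i j).image ρ).card := by
    by_contra hcon
    push Not at hcon
    have := Nat.mul_le_mul_left s hcon
    have h7 : N = s * (2 * A * B + A) := by
      simp only [N]
      ring
    omega
  have hass : Associated (scl (ρ i) (ε i) q) (scl (ρ j) (ε j) q) := by
    by_contra hcon
    have := bezout (irreducible_scl (hρ i) (hε i) hq) (irreducible_scl (hρ j) (hε j) hq) hcon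
      ((natDegree_scl_le _ _ _).trans q1) (fun t => (natDegree_coeff_scl_le _ _ _ t).trans (q2 t))
      ((natDegree_scl_le _ _ _).trans q1) (fun t => (natDegree_coeff_scl_le _ _ _ t).trans (q2 t))
      ((com i j).image ρ) fun x hx => by
        rw [Finset.mem_image] at hx
        obtain ⟨l, hl, rfl⟩ := hx
        have hl' := (Finset.mem_filter.1 hl).2
        refine ⟨ε l, ?_, ?_⟩
        · rw [evalEval_scl]
          exact (Finset.mem_filter.1 hl'.1).2
        · rw [evalEval_scl]
          exact (Finset.mem_filter.1 hl'.2).2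
    omega
  exact relation hq.ne_zero q1 q2 (mul_ne_zero (hρ i) (hρ l0)) (mul_ne_zero (hε i) (hε l0))
    (Finset.mem_filter.1 hl0'.1).2 (hρ j) (hε j) (hρ i) (hε i) hass

end Pool.Agent.Helper92.RZ
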