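import Mathlib

/-!
# RZ, KP5: lifting the exponent
-/

set_option autoImplicit false

namespace Pool.Agent.Helper92.RZ

theorem lte_prime {p : ℕ} (hp : p.Prime) {g h : ℤ} {N e : ℕ} (h2 : (p : ℤ) ^ 2 ∣ g - h) (hg : ¬ (p : ℤ) ∣ g)
    (he : (p : ℤ) ^ e ∣ g ^ N - h ^ N) : (p : ℤ) ^ e ∣ N * (g - h) := by
  have hpI : Prime (p : ℤ) := Nat.prime_iff_prime_int.1 hp
  rw [pow_dvd_iff_le_emultiplicity] at he ⊢
  rw [emultiplicity_mul hpI, add_comm]
  have h1 : (p : ℤ) ∣ g - h := (dvd_pow_self _ two_ne_zero).trans h2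
  rcases hp.eq_two_or_odd' with rfl | hodd
  · have h3 := Int.two_pow_sub_pow' (x := g) (y := h) N (by norm_num at h2; exact h2) (by exact_mod_cast hg)
    have h4 : ((2 : ℕ) : ℤ) = 2 := rfl
    rw [h4] at he ⊢
    rwa [h3] at he
  · have h3 := Int.emultiplicity_pow_sub_pow hp hodd h1 hg N
    rw [h3] at he
    rwa [Int.natCast_emultiplicity]

theorem lte {P J N : ℕ} (hP0 : P ≠ 0) (hP : ∀ p ∈ P.primeFactors, 2 ≤ P.factorization p) {g h : ℤ}
    (hg : IsCoprime g (P : ℤ)) (h1 : (P : ℤ) ∣ g - h) (h2 : (P : ℤ) ^ J ∣ g ^ N - h ^ N) :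
    (P : ℤ) ^ J ∣ N * (g - h) := by
  have key : (P : ℤ) ^ J = ∏ p ∈ P.primeFactors, ((p : ℤ) ^ (P.factorization p * J)) := by
    have h3 : P = ∏ p ∈ P.primeFactors, p ^ P.factorization p := (Nat.prod_factorization_pow_eq_self hP0).symm
    calc (P : ℤ) ^ J = ((∏ p ∈ P.primeFactors, p ^ P.factorization p : ℕ) : ℤ) ^ J := by rw [← h3]
      _ = _ := by
        rw [Nat.cast_prod, ← Finset.prod_pow]
        refine Finset.prod_congr rfl fun p _ => ?_
        rw [Nat.cast_pow, ← pow_mul]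
  rw [key]
  refine Finset.prod_dvd_of_coprime ?_ ?_
  · intro p hp q hq hpq
    have h4 : IsCoprime (p : ℤ) (q : ℤ) :=
      Nat.isCoprime_iff_coprime.2 ((Nat.coprime_primes (Nat.prime_of_mem_primeFactors hp)
        (Nat.prime_of_mem_primeFactors hq)).2 hpq)
    exact h4.pow
  · intro p hp
    have hpp := Nat.prime_of_mem_primeFactors hp
    have hpP : p ∣ P := Nat.dvd_of_mem_primeFactors hp
    have h5 : (p : ℤ) ^ P.factorization p ∣ (P : ℤ) := by exact_mod_cast Nat.ordProj_dvd P p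
    refine lte_prime hpp ((pow_dvd_pow _ (hP p hp)).trans (h5.trans h1)) ?_ ?_
    · intro hdg
      have h6 : IsUnit (p : ℤ) := hg.isUnit_of_dvd' hdg (by exact_mod_cast hpP)
      exact (Nat.prime_iff_prime_int.1 hpp).not_isUnit h6
    · rw [pow_mul]
      exact (pow_dvd_pow_of_dvd h5 J).trans h2

theorem zpow_toNat {G : Type} [DivisionRing G] (x : G) (a : ℤ) :
    x ^ a = x ^ a.toNat / x ^ (-a).toNat := by
  rcases le_total 0 a with h | h
  · obtain ⟨n, rfl⟩ := Int.eq_ofNat_of_zero_le h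
    simp
  · obtain ⟨n, hn⟩ := Int.eq_ofNat_of_zero_le (neg_nonneg.2 h)
    have h1 : a = -(n : ℤ) := by
      have : ((n : ℕ) : ℤ) = Int.ofNat n := rfl
      omega
    rw [h1]
    simp

theorem zpow_toNat' {G : Type} [CommGroup G] (x : G) (a : ℤ) : x ^ a = x ^ a.toNat / x ^ (-a).toNat := by
  rcases le_total 0 a with h | h
  · obtain ⟨n, rfl⟩ := Int.eq_ofNat_of_zero_le h
    simp
  · obtain ⟨n, hn⟩ := Int.eq_ofNat_of_zero_le (neg_nonneg.2 h)
    have h1 : a = -(n : ℤ) := by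
      have : ((n : ℕ) : ℤ) = Int.ofNat n := rfl
      omega
    rw [h1]
    simp

/-- KP5. -/
theorem contra {P J k A B : ℕ} (hP0 : P ≠ 0) (hP : ∀ p ∈ P.primeFactors, 2 ≤ P.factorization p) {g h m n : ℕ}
    (hg : g.Coprime P) (hh : h.Coprime P) (hm : m.Coprime P) (hn : n.Coprime P) (g0 : 0 < g) (h0 : 0 < h)
    (m0 : 0 < m) (n0 : 0 < n) (hgh : g ≠ h)
    (h1 : (P : ℤ) ∣ (g : ℤ) - h) (hk : (P : ℤ) ^ J ∣ (g : ℤ) ^ k * n - (h : ℤ) ^ k * m) (a b : ℤ)
    (hab : a ≠ 0 ∨ b ≠ 0) (ha : |a| ≤ A) (hb : |b| ≤ B) (hAk : A < k)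
    (hrel : ((g : ℚ) / h) ^ a * ((m : ℚ) / n) ^ b = 1) : P ^ J ≤ (A + k * B) * max g h := by
  have hg0 : (g : ℚ) ≠ 0 := by exact_mod_cast g0.ne'
  have hh0 : (h : ℚ) ≠ 0 := by exact_mod_cast h0.ne'
  have hm0 : (m : ℚ) ≠ 0 := by exact_mod_cast m0.ne'
  have hn0 : (n : ℚ) ≠ 0 := by exact_mod_cast n0.ne'
  -- the relation with natural exponents
  have hnat : g ^ a.toNat * h ^ (-a).toNat * (m ^ b.toNat * n ^ (-b).toNat) =
      h ^ a.toNat * g ^ (-a).toNat * (n ^ b.toNat * m ^ (-b).toNat) := by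
    rw [zpow_toNat ((g : ℚ) / h), zpow_toNat ((m : ℚ) / n), div_pow, div_pow, div_pow,
      div_pow] at hrel
    field_simp at hrel
    have : ((g ^ a.toNat * h ^ (-a).toNat * (m ^ b.toNat * n ^ (-b).toNat) : ℕ) : ℚ) =
      ((h ^ a.toNat * g ^ (-a).toNat * (n ^ b.toNat * m ^ (-b).toNat) : ℕ) : ℚ) := by
      push_cast
      linear_combination hrel
    exact_mod_cast this
  let R := ZMod (P ^ J)
  let G : Rˣ := ZMod.unitOfCoprime g (hg.pow_right J)
  let H : Rˣ := ZMod.unitOfCoprime h (hh.pow_right J)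
  let M : Rˣ := ZMod.unitOfCoprime m (hm.pow_right J)
  let N : Rˣ := ZMod.unitOfCoprime n (hn.pow_right J)
  have hG : (G : R) = (g : R) := ZMod.coe_unitOfCoprime _ _
  have hH : (H : R) = (h : R) := ZMod.coe_unitOfCoprime _ _
  have hM : (M : R) = (m : R) := ZMod.coe_unitOfCoprime _ _
  have hN : (N : R) = (n : R) := ZMod.coe_unitOfCoprime _ _
  have e1 : G ^ a.toNat * H ^ (-a).toNat * (M ^ b.toNat * N ^ (-b).toNat) =
      H ^ a.toNat * G ^ (-a).toNat * (N ^ b.toNat * M ^ (-b).toNat) := by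
    apply Units.ext
    push_cast
    rw [hG, hH, hM, hN]
    exact_mod_cast congrArg (Nat.cast : ℕ → R) hnat
  have e2 : (G / H) ^ a * (M / N) ^ b = 1 := by
    rw [zpow_toNat', zpow_toNat', div_pow, div_pow, div_pow, div_pow, div_div_div_eq, div_div_div_eq,
      div_mul_div_comm, div_eq_one]
    exact e1
  have e3 : G ^ k * N = H ^ k * M := by
    apply Units.ext
    push_cast
    rw [hG, hH, hM, hN]
    have h3 : ((P ^ J : ℕ) : ℤ) ∣ (g : ℤ) ^ k * n - (h : ℤ) ^ k * m := by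
      rw [Nat.cast_pow]
      exact hk
    rw [← ZMod.intCast_zmod_eq_zero_iff_dvd] at h3
    push_cast at h3
    exact sub_eq_zero.1 h3
  have e4 : M / N = (G / H) ^ k := by
    rw [div_pow, div_eq_div_iff_mul_eq_mul, mul_comm, ← e3, mul_comm]
  have e5 : (G / H) ^ (a + k * b) = 1 := by
    rw [zpow_add, zpow_mul, zpow_natCast, ← e4]
    exact e2
  set t : ℤ := a + k * b with ht
  have ht0 : t ≠ 0 := by
    intro h4
    rcases eq_or_ne b 0 with hb0 | hb0
    · rw [hb0, mul_zero, add_zero] at ht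
      rcases hab with h5 | h5
      · exact h5 (ht ▸ h4)
      · exact h5 hb0
    · have h5 : (k : ℤ) * |b| = |a| := by
        have h6 : (k : ℤ) * b = -a := by linarith
        calc (k : ℤ) * |b| = |(k : ℤ) * b| := by rw [abs_mul, Nat.abs_cast]
          _ = |a| := by rw [h6, abs_neg]
      have h6 : 1 ≤ |b| := Int.one_le_abs hb0
      have h7 : (k : ℤ) ≤ k * |b| := le_mul_of_one_le_right (Nat.cast_nonneg _) h6
      have h8 : (A : ℤ) < k := by exact_mod_cast hAk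
      linarith
  have e6 : (G / H) ^ t.natAbs = 1 := by
    rcases Int.natAbs_eq t with h5 | h5
    · rw [h5, zpow_natCast] at e5
      exact e5
    · rw [h5, zpow_neg, zpow_natCast, inv_eq_one] at e5
      exact e5
  have e7 : (P : ℤ) ^ J ∣ (g : ℤ) ^ t.natAbs - (h : ℤ) ^ t.natAbs := by
    have h5 : ((P ^ J : ℕ) : ℤ) ∣ (g : ℤ) ^ t.natAbs - (h : ℤ) ^ t.natAbs := by
      rw [← ZMod.intCast_zmod_eq_zero_iff_dvd]
      push_cast
      rw [sub_eq_zero]
      rw [div_pow, div_eq_one] at e6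
      have := congrArg Units.val e6
      push_cast at this
      rw [hG, hH] at this
      exact this
    rwa [Nat.cast_pow] at h5
  have e8 := lte hP0 hP (Nat.isCoprime_iff_coprime.2 hg) h1 e7
  have hne : (t.natAbs : ℤ) * ((g : ℤ) - h) ≠ 0 := by
    refine mul_ne_zero ?_ (sub_ne_zero.2 (by exact_mod_cast hgh))
    exact_mod_cast Int.natAbs_ne_zero.2 ht0
  have e9 := Int.le_of_dvd (abs_pos.2 hne) ((dvd_abs _ _).2 e8)
  rw [abs_mul, Nat.abs_cast] at e9
  have e10 : |(g : ℤ) - h| ≤ (max g h : ℕ) := by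
    rw [abs_le]
    constructor
    · have := le_max_right g h
      omega
    · have := le_max_left g h
      omega
  have e11 : (t.natAbs : ℤ) ≤ A + k * B := by
    rw [Int.natCast_natAbs, ht]
    calc |a + k * b| ≤ |a| + |(k : ℤ) * b| := abs_add_le _ _
      _ = |a| + k * |b| := by rw [abs_mul, Nat.abs_cast]
      _ ≤ A + k * B := by
        have : (k : ℤ) * |b| ≤ k * B := mul_le_mul_of_nonneg_left hb (Nat.cast_nonneg _)
        linarith
  have e12 : ((P ^ J : ℕ) : ℤ) ≤ (((A + k * B) * max g h : ℕ) : ℤ) := by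
    rw [Nat.cast_pow]
    push_cast
    calc (P : ℤ) ^ J ≤ (t.natAbs : ℤ) * |(g : ℤ) - h| := e9
      _ ≤ (A + k * B) * (max g h : ℕ) := mul_le_mul e11 e10 (abs_nonneg _) (by positivity)
      _ = _ := by push_cast; ring
  exact_mod_cast e12

end Pool.Agent.Helper92.RZ
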