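import Pool.Agent.Helper92.RZ.KP3b
import Pool.Agent.Helper92.RZ.KP4
import Pool.Agent.Helper92.RZ.KP5

/-!
# RZ: the core of KP
-/

set_option autoImplicit false

namespace Pool.Agent.Helper92.RZ

open Finset

/-- Pigeonhole: a large class of the quotients `(x i x l) / (y i y l)` modulo `P`. -/
theorem exists_class {κ : Type} [Fintype κ] [DecidableEq κ] {P : ℕ} (hP0 : P ≠ 0) (x y : κ → ℕ)
    (hy : ∀ i, (y i).Coprime P) : ∃ U : Finset (κ × κ), Fintype.card κ ^ 2 ≤ P * U.card ∧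
      ∀ p ∈ U, ∀ q ∈ U, (P : ℤ) ∣ ((x p.1 * x p.2 : ℕ) : ℤ) * (y q.1 * y q.2 : ℕ) -
        ((x q.1 * x q.2 : ℕ) : ℤ) * (y p.1 * y p.2 : ℕ) := by
  classical
  have : NeZero P := ⟨hP0⟩
  let f : κ × κ → ZMod P := fun p => ((x p.1 * x p.2 : ℕ) : ZMod P) * ((y p.1 * y p.2 : ℕ) : ZMod P)⁻¹
  obtain ⟨z, hz⟩ : ∃ z : ZMod P, Fintype.card κ ^ 2 ≤ P * (univ.filter (fun p => f p = z)).card := by
    by_contra hcon
    push Not at hcon
    have h1 : (univ : Finset (κ × κ)).card = ∑ z : ZMod P, (univ.filter (fun p => f p = z)).card :=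
      Finset.card_eq_sum_card_fiberwise (fun _ _ => Finset.mem_univ _)
    have h2 : (univ : Finset (κ × κ)).card = Fintype.card κ ^ 2 := by
      rw [Finset.card_univ, Fintype.card_prod, sq]
    have h3 : P * ∑ z : ZMod P, (univ.filter (fun p => f p = z)).card <
        ∑ _z : ZMod P, Fintype.card κ ^ 2 := by
      rw [Finset.mul_sum]
      exact Finset.sum_lt_sum_of_nonempty ⟨0, Finset.mem_univ _⟩ fun z _ => hcon z
    rw [← h1, h2, Finset.sum_const, Finset.card_univ, ZMod.card, smul_eq_mul] at h3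
    exact lt_irrefl _ h3
  refine ⟨_, hz, fun p hp q hq => ?_⟩
  have h1 : f p = z := (Finset.mem_filter.1 hp).2
  have h2 : f q = z := (Finset.mem_filter.1 hq).2
  have hcy : ∀ r : κ × κ, ((y r.1 * y r.2 : ℕ) : ZMod P) * ((y r.1 * y r.2 : ℕ) : ZMod P)⁻¹ = 1 := fun r =>
    ZMod.coe_mul_inv_eq_one _ (Nat.Coprime.mul_left (hy r.1) (hy r.2))
  rw [← ZMod.intCast_zmod_eq_zero_iff_dvd]
  rw [Int.cast_sub, Int.cast_mul, Int.cast_mul, Int.cast_natCast, Int.cast_natCast, Int.cast_natCast,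
    Int.cast_natCast, sub_eq_zero]
  have h3 : f p = f q := h1.trans h2.symm
  simp only [f] at h3
  calc ((x p.1 * x p.2 : ℕ) : ZMod P) * ((y q.1 * y q.2 : ℕ) : ZMod P)
      = ((x p.1 * x p.2 : ℕ) : ZMod P) * (((y p.1 * y p.2 : ℕ) : ZMod P) * ((y p.1 * y p.2 : ℕ) : ZMod P)⁻¹) *
          ((y q.1 * y q.2 : ℕ) : ZMod P) := by rw [hcy p, mul_one]
    _ = ((x p.1 * x p.2 : ℕ) : ZMod P) * ((y p.1 * y p.2 : ℕ) : ZMod P)⁻¹ * ((y p.1 * y p.2 : ℕ) : ZMod P) *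
          ((y q.1 * y q.2 : ℕ) : ZMod P) := by ring
    _ = ((x q.1 * x q.2 : ℕ) : ZMod P) * ((y q.1 * y q.2 : ℕ) : ZMod P)⁻¹ * ((y p.1 * y p.2 : ℕ) : ZMod P) *
          ((y q.1 * y q.2 : ℕ) : ZMod P) := by rw [h3]
    _ = ((x q.1 * x q.2 : ℕ) : ZMod P) * (((y q.1 * y q.2 : ℕ) : ZMod P) * ((y q.1 * y q.2 : ℕ) : ZMod P)⁻¹) *
          ((y p.1 * y p.2 : ℕ) : ZMod P) := by ring
    _ = _ := by rw [hcy q, mul_one]

/-- The core of KP: a large family cannot exist. -/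
theorem core {κ : Type} [Fintype κ] [DecidableEq κ] {A B J P k s E1 E2 : ℕ} (hP0 : P ≠ 0)
    (hP : ∀ p ∈ P.primeFactors, 2 ≤ P.factorization p) (x y u v : κ → ℕ) {q0 q1 : ℤ}
    (hq0 : IsCoprime q0 (P : ℤ)) (hq1 : IsCoprime q1 (P : ℤ))
    (hx : ∀ i, (x i).Coprime P) (hy : ∀ i, (y i).Coprime P) (hu : ∀ i, (u i).Coprime P)
    (hv : ∀ i, (v i).Coprime P) (px : ∀ i, 0 < x i) (py : ∀ i, 0 < y i) (pu : ∀ i, 0 < u i) (pv : ∀ i, 0 < v i)
    (hc : ∀ i, (P : ℤ) ^ J ∣ (x i : ℤ) ^ k * v i * q0 - (y i : ℤ) ^ k * u i * q1)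
    (b1 : ∀ i, x i ≤ E1) (b2 : ∀ i, y i ≤ E1) (b3 : ∀ i, u i ≤ E2) (b4 : ∀ i, v i ≤ E2)
    (hs : ∀ i, (univ.filter (fun j => x j * y i = x i * y j)).card ≤ s)
    (hTJ : (A + 1) * (B + 1) ≤ J) (hAk : A < k)
    (hsize : ((A + 1) * (B + 1)).factorial * ((E1 ^ 2) ^ A * (E2 ^ 2) ^ B) ^ ((A + 1) * (B + 1)) <
      P ^ (∑ i ∈ range ((A + 1) * (B + 1)), i))
    (hcard : P ^ 2 * (A + B) ^ 2 * s * (2 * A * B + A + 1) < Fintype.card κ)
    (hfin : (A + k * B) * E1 ^ 2 < P ^ J) : False := by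
  classical
  obtain ⟨U, hU, hcl⟩ := exists_class hP0 x y hy
  have dvd_mul_sub : ∀ {m a b c d : ℤ}, m ∣ a - b → m ∣ c - d → m ∣ a * c - b * d := by
    intro m a b c d h1 h2
    have : a * c - b * d = (a - b) * c + b * (c - d) := by ring
    rw [this]
    exact dvd_add (h1.mul_right _) (h2.mul_left _)
  obtain ⟨c, hc0, hc1⟩ := exists_coeff (A := A) (B := B) (J := J) (P := P) (k := k) (E1 := E1 ^ 2) (E2 := E2 ^ 2)
    hTJ (fun p : κ × κ => x p.1 * x p.2) (fun p => y p.1 * y p.2) (fun p => u p.1 * u p.2)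
    (fun p => v p.1 * v p.2) (q0 := q0 * q0) (q1 := q1 * q1) (hq1.mul_left hq1) U
    (fun p _ => Nat.Coprime.mul_left (hx _) (hx _)) (fun p _ => Nat.Coprime.mul_left (hy _) (hy _))
    (fun p _ => ⟨Nat.mul_pos (py _) (py _), Nat.mul_pos (pv _) (pv _)⟩)
    (fun p _ => by
      have h1 := dvd_mul_sub (hc p.1) (hc p.2)
      have h2 : ((x p.1 * x p.2 : ℕ) : ℤ) ^ k * (v p.1 * v p.2 : ℕ) * (q0 * q0) -
          ((y p.1 * y p.2 : ℕ) : ℤ) ^ k * (u p.1 * u p.2 : ℕ) * (q1 * q1) =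
          (x p.1 : ℤ) ^ k * v p.1 * q0 * ((x p.2 : ℤ) ^ k * v p.2 * q0) -
          (y p.1 : ℤ) ^ k * u p.1 * q1 * ((y p.2 : ℤ) ^ k * u p.2 * q1) := by
        push_cast
        ring
      rw [h2]
      exact h1) hcl
    (fun p _ => by rw [sq]; exact Nat.mul_le_mul (b1 _) (b1 _))
    (fun p _ => by rw [sq]; exact Nat.mul_le_mul (b2 _) (b2 _))
    (fun p _ => by rw [sq]; exact Nat.mul_le_mul (b3 _) (b3 _))
    (fun p _ => by rw [sq]; exact Nat.mul_le_mul (b4 _) (b4 _)) hsize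
  have x0 : ∀ i, (x i : ℚ) ≠ 0 := fun i => by exact_mod_cast (px i).ne'
  have y0 : ∀ i, (y i : ℚ) ≠ 0 := fun i => by exact_mod_cast (py i).ne'
  have u0 : ∀ i, (u i : ℚ) ≠ 0 := fun i => by exact_mod_cast (pu i).ne'
  have v0 : ∀ i, (v i : ℚ) ≠ 0 := fun i => by exact_mod_cast (pv i).ne'
  have hκ : 0 < Fintype.card κ := by omega
  have hbig : (A + B) ^ 2 * Fintype.card κ ^ 3 * s * (2 * A * B + A + 1) < U.card ^ 2 := by
    have h1 : (Fintype.card κ ^ 2) ^ 2 ≤ (P * U.card) ^ 2 := Nat.pow_le_pow_left hU 2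
    have h2 : Fintype.card κ ^ 3 * (P ^ 2 * (A + B) ^ 2 * s * (2 * A * B + A + 1)) <
        Fintype.card κ ^ 3 * Fintype.card κ := Nat.mul_lt_mul_of_pos_left hcard (pow_pos hκ 3)
    have h3 : P ^ 2 * ((A + B) ^ 2 * Fintype.card κ ^ 3 * s * (2 * A * B + A + 1)) < P ^ 2 * U.card ^ 2 := by
      calc P ^ 2 * ((A + B) ^ 2 * Fintype.card κ ^ 3 * s * (2 * A * B + A + 1))
          = Fintype.card κ ^ 3 * (P ^ 2 * (A + B) ^ 2 * s * (2 * A * B + A + 1)) := by ring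
        _ < Fintype.card κ ^ 3 * Fintype.card κ := h2
        _ = (Fintype.card κ ^ 2) ^ 2 := by ring
        _ ≤ (P * U.card) ^ 2 := h1
        _ = P ^ 2 * U.card ^ 2 := by ring
    exact lt_of_mul_lt_mul_left h3 (Nat.zero_le _)
  have hρeq : ∀ i j, (x i : ℚ) / y i = (x j : ℚ) / y j ↔ x i * y j = x j * y i := by
    intro i j
    rw [div_eq_div_iff (y0 i) (y0 j)]
    exact_mod_cast Iff.rfl
  obtain ⟨i, j, l, hil, hjl, hne, a, b, hab, ha, hb, hrel⟩ := two_poly A B s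
    (fun i => (x i : ℚ) / y i) (fun i => (u i : ℚ) / v i) (fun i => div_ne_zero (x0 i) (y0 i))
    (fun i => div_ne_zero (u0 i) (v0 i)) U c hc0 (fun p hp => by
      have h1 := hc1 p hp
      rw [← h1]
      refine Finset.sum_congr rfl fun t _ => ?_
      push_cast
      rw [div_mul_div_comm, div_mul_div_comm])
    (fun i => by
      refine le_trans (Finset.card_le_card fun j hj => ?_) (hs i)
      rw [Finset.mem_filter] at hj ⊢
      exact ⟨hj.1, (hρeq j i).1 hj.2⟩) hbig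
  -- the class condition for `i`, `j`
  have hcl' : (P : ℤ) ∣ ((x i * y j : ℕ) : ℤ) - (x j * y i : ℕ) := by
    have h1 := hcl (i, l) hil (j, l) hjl
    have h2 : ((x i * x l : ℕ) : ℤ) * (y j * y l : ℕ) - ((x j * x l : ℕ) : ℤ) * (y i * y l : ℕ) =
        (((x i * y j : ℕ) : ℤ) - (x j * y i : ℕ)) * (x l * y l : ℕ) := by
      push_cast
      ring
    have h3 : IsCoprime (P : ℤ) ((x l * y l : ℕ) : ℤ) :=
      Nat.isCoprime_iff_coprime.2 (Nat.Coprime.mul_left (hx l) (hy l)).symm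
    simp only at h1
    rw [h2] at h1
    exact h3.dvd_of_dvd_mul_right h1
  have hk' : (P : ℤ) ^ J ∣ ((x i * y j : ℕ) : ℤ) ^ k * (u j * v i : ℕ) - ((x j * y i : ℕ) : ℤ) ^ k * (u i * v j : ℕ) := by
    have h1 := hc i
    have h2 : (P : ℤ) ^ J ∣ (y j : ℤ) ^ k * u j * q1 - (x j : ℤ) ^ k * v j * q0 := by
      rw [← dvd_neg, neg_sub]
      exact hc j
    have h3 := dvd_mul_sub h1 h2
    have h4 : (x i : ℤ) ^ k * v i * q0 * ((y j : ℤ) ^ k * u j * q1) -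
        (y i : ℤ) ^ k * u i * q1 * ((x j : ℤ) ^ k * v j * q0) =
        (((x i * y j : ℕ) : ℤ) ^ k * (u j * v i : ℕ) - ((x j * y i : ℕ) : ℤ) ^ k * (u i * v j : ℕ)) * (q0 * q1) := by
      push_cast
      ring
    rw [h4] at h3
    have h5 : IsCoprime ((P : ℤ) ^ J) (q0 * q1) := ((hq0.mul_left hq1).symm).pow_left
    exact h5.dvd_of_dvd_mul_right h3
  have hrel' : (((x i * y j : ℕ) : ℚ) / (x j * y i : ℕ)) ^ a * (((u i * v j : ℕ) : ℚ) / (u j * v i : ℕ)) ^ b = 1 := by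
    have h1 : ((x i * y j : ℕ) : ℚ) / (x j * y i : ℕ) = (x i : ℚ) / y i / ((x j : ℚ) / y j) := by
      push_cast
      rw [div_div_div_eq, mul_comm (y i : ℚ)]
    have h2 : ((u i * v j : ℕ) : ℚ) / (u j * v i : ℕ) = (u i : ℚ) / v i / ((u j : ℚ) / v j) := by
      push_cast
      rw [div_div_div_eq, mul_comm (v i : ℚ)]
    rw [h1, h2]
    exact hrel
  have hfinal := contra hP0 hP (Nat.Coprime.mul_left (hx i) (hy j)) (Nat.Coprime.mul_left (hx j) (hy i))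
    (Nat.Coprime.mul_left (hu i) (hv j)) (Nat.Coprime.mul_left (hu j) (hv i)) (Nat.mul_pos (px i) (py j))
    (Nat.mul_pos (px j) (py i)) (Nat.mul_pos (pu i) (pv j)) (Nat.mul_pos (pu j) (pv i))
    (fun h => hne ((hρeq i j).2 h)) hcl' hk' a b hab ha hb hAk hrel'
  have hmax : max (x i * y j) (x j * y i) ≤ E1 ^ 2 := by
    rw [sq]
    exact max_le (Nat.mul_le_mul (b1 i) (b2 j)) (Nat.mul_le_mul (b1 j) (b2 i))
  have h9 := hfinal.trans (Nat.mul_le_mul_left _ hmax)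
  omega

end Pool.Agent.Helper92.RZ
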