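import Mathlib
import Pool.Agent.Helper89.ZD.Det

/-!
# RZ, KP3: the interpolation determinant
-/

set_option autoImplicit false

namespace Pool.Agent.Helper92.RZ

open Finset

/-- The sum of `n` different natural numbers. -/
theorem sum_range_le_sum (S : Finset ℕ) : ∑ i ∈ range S.card, i ≤ ∑ i ∈ S, i := by
  induction S using Finset.induction_on_max with
  | empty => simp
  | insert a S ha ih =>
    have hna : a ∉ S := fun h => lt_irrefl _ (ha a h)
    rw [Finset.card_insert_of_notMem hna, Finset.sum_range_succ, Finset.sum_insert hna, add_comm]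
    refine Nat.add_le_add ?_ ih
    have h1 : S ⊆ range a := fun x hx => Finset.mem_range.2 (ha x hx)
    simpa using Finset.card_le_card h1

/-- The exponent of a choice. -/
def ex {T : ℕ} (o : Option (Fin T)) : ℕ := o.elim T (fun j => (j : ℕ))

theorem sum_ex {T : ℕ} (φ : Fin T → Option (Fin T))
    (hφ : ∀ r r' j, φ r = some j → φ r' = some j → r = r') : ∑ i ∈ range T, i ≤ ∑ r, ex (φ r) := by
  classical
  let S : Finset (Fin T) := univ.filter (fun r => φ r ≠ none)
  let f : Fin T → ℕ := fun r => ex (φ r)
  have hinj : Set.InjOn f S := by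
    intro r hr r' hr' h
    have h1 : φ r ≠ none := (Finset.mem_filter.1 hr).2
    have h2 : φ r' ≠ none := (Finset.mem_filter.1 hr').2
    obtain ⟨j, hj⟩ := Option.ne_none_iff_exists'.1 h1
    obtain ⟨j', hj'⟩ := Option.ne_none_iff_exists'.1 h2
    have h3 : (j : ℕ) = j' := by
      have := h
      simp only [f, hj, hj', ex, Option.elim] at this
      exact this
    have h4 : j = j' := Fin.ext h3
    exact hφ r r' j hj (h4 ▸ hj')
  have hc : (S.image f).card = S.card := Finset.card_image_of_injOn hinj
  have h1 := sum_range_le_sum (S.image f)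
  rw [hc, Finset.sum_image hinj] at h1
  have h2 : ∑ r, ex (φ r) = ∑ r ∈ S, f r + ∑ r ∈ univ.filter (fun r => ¬ φ r ≠ none), f r :=
    (Finset.sum_filter_add_sum_filter_not univ (fun r => φ r ≠ none) f).symm
  have h3 : ∑ r ∈ univ.filter (fun r => ¬ φ r ≠ none), f r = (T - S.card) * T := by
    have h4 : ∀ r ∈ univ.filter (fun r => ¬ φ r ≠ none), f r = T := by
      intro r hr
      have h5 := (Finset.mem_filter.1 hr).2
      rw [not_not] at h5
      simp only [f, h5, ex, Option.elim]
    rw [Finset.sum_congr rfl h4, Finset.sum_const, smul_eq_mul]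
    congr 1
    have h6 := Finset.card_filter_add_card_filter_not (s := (univ : Finset (Fin T))) (fun r => φ r ≠ none)
    rw [Finset.card_univ, Fintype.card_fin] at h6
    have h7 : S.card = (univ.filter (fun r => φ r ≠ none)).card := rfl
    omega
  have hS : S.card ≤ T := by
    have := Finset.card_le_univ S
    rwa [Fintype.card_fin] at this
  have h8 : ∑ i ∈ range T, i ≤ ∑ i ∈ range S.card, i + (T - S.card) * T := by
    have h9 : ∑ i ∈ range T, i = ∑ i ∈ range S.card, i + ∑ i ∈ Ico S.card T, i := by
      rw [Finset.range_eq_Ico, Finset.range_eq_Ico, Finset.sum_Ico_consecutive _ (Nat.zero_le _) hS]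
    rw [h9]
    refine Nat.add_le_add_left ?_ _
    calc ∑ i ∈ Ico S.card T, i ≤ ∑ _i ∈ Ico S.card T, T :=
          Finset.sum_le_sum fun i hi => (Finset.mem_Ico.1 hi).2.le
      _ = (T - S.card) * T := by rw [Finset.sum_const, Nat.card_Ico, smul_eq_mul]
  rw [h2, h3]
  omega

/-- A determinant with `T` rows `∑ P ^ j c w + P ^ T R`. -/
theorem pow_dvd_det {T : ℕ} (P : ℤ) (M : Matrix (Fin T) (Fin T) ℤ) (c w R : Matrix (Fin T) (Fin T) ℤ)
    (hM : ∀ r t, M r t = ∑ j : Fin T, P ^ (j : ℕ) * c r j * w j t + P ^ T * R r t) :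
    P ^ (∑ i ∈ range T, i) ∣ M.det := by
  classical
  let v : Fin T → Option (Fin T) → (Fin T → ℤ) := fun r o => o.elim (fun t => R r t) (fun j => fun t => w j t)
  let s : Fin T → Option (Fin T) → ℤ := fun r o => P ^ ex o * o.elim 1 (fun j => c r j)
  have h1 : M = fun r => ∑ o : Option (Fin T), s r o • v r o := by
    funext r t
    rw [Finset.sum_apply, Fintype.sum_option]
    simp only [s, v, ex, Option.elim, Pi.smul_apply, smul_eq_mul]
    rw [hM r t]
    ring
  have h2 : M.det = ∑ φ : Fin T → Option (Fin T), (∏ r, s r (φ r)) * (Matrix.of fun r => v r (φ r)).det := by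
    calc M.det = Matrix.detRowAlternating M := rfl
      _ = (Matrix.detRowAlternating (R := ℤ) (n := Fin T)).toMultilinearMap
          (fun r => ∑ o : Option (Fin T), s r o • v r o) := by rw [← h1]; rfl
      _ = ∑ φ : Fin T → Option (Fin T), (Matrix.detRowAlternating (R := ℤ) (n := Fin T)).toMultilinearMap
          (fun r => s r (φ r) • v r (φ r)) := MultilinearMap.map_sum _ _
      _ = _ := by
          refine Finset.sum_congr rfl fun φ _ => ?_
          rw [MultilinearMap.map_smul_univ]
          rfl
  rw [h2]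
  refine Finset.dvd_sum fun φ _ => ?_
  by_cases hφ : ∀ r r' j, φ r = some j → φ r' = some j → r = r'
  · refine Dvd.dvd.mul_right ?_ _
    rw [Finset.prod_mul_distrib, Finset.prod_pow_eq_pow_sum]
    exact Dvd.dvd.mul_right (pow_dvd_pow _ (sum_ex φ hφ)) _
  · push Not at hφ
    obtain ⟨r, r', j, h3, h4, h5⟩ := hφ
    have h6 : (Matrix.of fun r => v r (φ r)).det = 0 := Matrix.det_zero_of_row_eq h5 (by
      show v r (φ r) = v r' (φ r')
      rw [h3, h4]
      rfl)
    rw [h6, mul_zero]
    exact dvd_zero _

theorem one_add_pow_trunc {R : Type} [CommRing R] (z : R) (T m : ℕ) (hz : z ^ T = 0) :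
    (1 + z) ^ m = ∑ j : Fin T, z ^ (j : ℕ) * (m.choose j : R) := by
  rw [add_comm, add_pow]
  simp only [one_pow, mul_one]
  rw [Finset.sum_fin_eq_sum_range]
  rcases le_total (m + 1) T with h | h
  · rw [← Finset.sum_subset (Finset.range_subset_range.2 h)]
    · refine Finset.sum_congr rfl fun j hj => ?_
      rw [dif_pos (lt_of_lt_of_le (Finset.mem_range.1 hj) h)]
    · intro j _ hj
      rw [Finset.mem_range, not_lt] at hj
      split_ifs
      · rw [Nat.choose_eq_zero_of_lt (show m < j by omega), Nat.cast_zero, mul_zero]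
      · rfl
  · rw [← Finset.sum_subset (Finset.range_subset_range.2 h)]
    · refine Finset.sum_congr rfl fun j hj => ?_
      rw [dif_pos (Finset.mem_range.1 hj)]
    · intro j _ hj
      rw [Finset.mem_range, not_lt] at hj
      rw [← Nat.sub_add_cancel hj, pow_add, hz, mul_zero, zero_mul]

end Pool.Agent.Helper92.RZ
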