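import Pool.Agent.Helper92.RZ.KP3

/-!
# RZ, KP3: a polynomial which vanishes on a class
-/

set_option autoImplicit false

namespace Pool.Agent.Helper92.RZ

open Finset

theorem pow_dvd_det_zmod {T : ℕ} (P : ℕ) (M : Matrix (Fin T) (Fin T) ℤ) (c w : Fin T → Fin T → ZMod (P ^ T))
    (h : ∀ r t, (M r t : ZMod (P ^ T)) = ∑ j : Fin T, (P : ZMod (P ^ T)) ^ (j : ℕ) * c r j * w j t) :
    (P : ℤ) ^ (∑ i ∈ range T, i) ∣ M.det := by
  choose L hL using fun z : ZMod (P ^ T) => ZMod.intCast_surjective z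
  have h1 : ∀ r t, ((P : ℤ) ^ T) ∣ M r t - ∑ j : Fin T, (P : ℤ) ^ (j : ℕ) * L (c r j) * L (w j t) := by
    intro r t
    have h2 : ((P ^ T : ℕ) : ℤ) ∣ M r t - ∑ j : Fin T, (P : ℤ) ^ (j : ℕ) * L (c r j) * L (w j t) := by
      rw [← ZMod.intCast_zmod_eq_zero_iff_dvd]
      push_cast
      rw [h r t, sub_eq_zero]
      refine Finset.sum_congr rfl fun j _ => ?_
      rw [hL, hL]
    rwa [Nat.cast_pow] at h2
  choose R hR using h1
  exact pow_dvd_det (P : ℤ) M (Matrix.of fun r j => L (c r j)) (Matrix.of fun j t => L (w j t)) (Matrix.of R)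
    fun r t => by
      simp only [Matrix.of_apply]
      rw [← hR r t]
      ring

theorem exists_inv {P T : ℕ} {a : ℤ} (h : IsCoprime a (P : ℤ)) : ∃ b : ZMod (P ^ T), (a : ZMod (P ^ T)) * b = 1 := by
  obtain ⟨u, v, huv⟩ := h.pow_right (n := T)
  refine ⟨(u : ZMod (P ^ T)), ?_⟩
  have h1 := congrArg (Int.cast : ℤ → ZMod (P ^ T)) huv
  push_cast at h1
  have h2 : (P : ZMod (P ^ T)) ^ T = 0 := by
    rw [← Nat.cast_pow, ZMod.natCast_self]
  rw [h2, mul_zero, add_zero] at h1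
  rw [mul_comm]
  exact h1

/-- The entries. -/
theorem entry_eq {R : Type} [CommRing R] {T A B k a b : ℕ} (ha : a ≤ A) (hb : b ≤ B)
    {P x y u v q0 q1 y' q1' x0 y0 x0' y0' z : R} (hP : P ^ T = 0) (hy : y * y' = 1)
    (hq1 : q1 * q1' = 1) (hx0 : x0 * x0' = 1) (hy0 : y0 * y0' = 1) (hc : x ^ k * v * q0 = y ^ k * u * q1)
    (hz : x * y0 - x0 * y = P * z) :
    x ^ a * y ^ (A - a) * u ^ b * v ^ (B - b) =
      ∑ j : Fin T, P ^ (j : ℕ) * (y ^ A * v ^ B * (z * x0' * y') ^ (j : ℕ)) *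
        ((q0 * q1') ^ b * (x0 * y0') ^ (a + k * b) * ((a + k * b).choose j : R)) := by
  have h1 : x * y' = x0 * y0' * (1 + P * (z * x0' * y')) := by
    calc x * y' = x * y' * (y0 * y0') := by rw [hy0, mul_one]
      _ = x0 * y0' * (y * y') + (x * y0 - x0 * y) * y0' * y' := by ring
      _ = x0 * y0' * 1 + P * z * y0' * y' * (x0 * x0') := by rw [hz, hy, hx0, mul_one (P * z * y0' * y')]
      _ = _ := by ring
  have h2 : u = v * (x * y') ^ k * (q0 * q1') := by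
    calc u = (y * y') ^ k * u * (q1 * q1') := by rw [hy, hq1, one_pow, one_mul, mul_one]
      _ = (y ^ k * u * q1) * y' ^ k * q1' := by rw [mul_pow]; ring
      _ = (x ^ k * v * q0) * y' ^ k * q1' := by rw [hc]
      _ = _ := by rw [mul_pow]; ring
  have h3 : x ^ a * y ^ (A - a) = y ^ A * (x * y') ^ a := by
    calc x ^ a * y ^ (A - a) = x ^ a * y ^ (A - a) * (y * y') ^ a := by rw [hy, one_pow, mul_one]
      _ = y ^ (A - a + a) * (x * y') ^ a := by rw [pow_add, mul_pow, mul_pow]; ring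
      _ = _ := by rw [Nat.sub_add_cancel ha]
  have h4 : u ^ b * v ^ (B - b) = v ^ B * ((x * y') ^ (k * b) * (q0 * q1') ^ b) := by
    calc u ^ b * v ^ (B - b) = v ^ (B - b + b) * (((x * y') ^ k) ^ b * (q0 * q1') ^ b) := by
          rw [h2, mul_pow, mul_pow, pow_add]; ring
      _ = _ := by rw [Nat.sub_add_cancel hb, ← pow_mul]
  have h5 : (x * y') ^ (a + k * b) = (x0 * y0') ^ (a + k * b) *
      ∑ j : Fin T, (P * (z * x0' * y')) ^ (j : ℕ) * ((a + k * b).choose j : R) := by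
    rw [h1, mul_pow, one_add_pow_trunc _ T _ (by rw [mul_pow, hP, zero_mul])]
  calc x ^ a * y ^ (A - a) * u ^ b * v ^ (B - b)
      = (x ^ a * y ^ (A - a)) * (u ^ b * v ^ (B - b)) := by ring
    _ = y ^ A * v ^ B * (q0 * q1') ^ b * (x * y') ^ (a + k * b) := by rw [h3, h4, pow_add]; ring
    _ = _ := by
        rw [h5, Finset.mul_sum, Finset.mul_sum]
        refine Finset.sum_congr rfl fun j _ => ?_
        rw [mul_pow P]
        ring

/-- KP3. -/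
theorem exists_coeff {ι : Type} {A B J P k E1 E2 : ℕ} (hTJ : (A + 1) * (B + 1) ≤ J) (x y u v : ι → ℕ)
    {q0 q1 : ℤ} (hq1 : IsCoprime q1 (P : ℤ)) (U : Finset ι)
    (hx : ∀ i ∈ U, (x i).Coprime P) (hy : ∀ i ∈ U, (y i).Coprime P)
    (hpos : ∀ i ∈ U, 0 < y i ∧ 0 < v i)
    (hc : ∀ i ∈ U, (P : ℤ) ^ J ∣ (x i : ℤ) ^ k * v i * q0 - (y i : ℤ) ^ k * u i * q1)
    (hcl : ∀ i ∈ U, ∀ j ∈ U, (P : ℤ) ∣ (x i : ℤ) * y j - x j * y i)
    (b1 : ∀ i ∈ U, x i ≤ E1) (b2 : ∀ i ∈ U, y i ≤ E1) (b3 : ∀ i ∈ U, u i ≤ E2) (b4 : ∀ i ∈ U, v i ≤ E2)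
    (hsize : ((A + 1) * (B + 1)).factorial * (E1 ^ A * E2 ^ B) ^ ((A + 1) * (B + 1)) <
      P ^ (∑ i ∈ range ((A + 1) * (B + 1)), i)) :
    ∃ c : Fin (A + 1) × Fin (B + 1) → ℚ, c ≠ 0 ∧ ∀ i ∈ U,
      ∑ t, c t * ((x i : ℚ) / y i) ^ (t.1 : ℕ) * ((u i : ℚ) / v i) ^ (t.2 : ℕ) = 0 := by
  classical
  by_contra hcon
  push Not at hcon
  set T := (A + 1) * (B + 1) with hT
  let J0 := Fin (A + 1) × Fin (B + 1)
  let g : J0 → ι → ℤ := fun t i => (x i : ℤ) ^ (t.1 : ℕ) * (y i : ℤ) ^ (A - t.1) * (u i : ℤ) ^ (t.2 : ℕ) *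
    (v i : ℤ) ^ (B - t.2)
  obtain ⟨s, hs⟩ := Pool.Agent.Helper89.ZD.exists_minor (S := {i // i ∈ U}) (J := J0)
    (fun t i => (g t i.1 : ℚ)) fun a ha => by
      by_contra hne
      obtain ⟨i, hi, hi'⟩ := hcon a hne
      apply hi'
      have h1 := ha ⟨i, hi⟩
      have hy0 : (y i : ℚ) ≠ 0 := by exact_mod_cast (hpos i hi).1.ne'
      have hv0 : (v i : ℚ) ≠ 0 := by exact_mod_cast (hpos i hi).2.ne'
      have h2 : ∑ t : J0, a t * ((x i : ℚ) / y i) ^ (t.1 : ℕ) * ((u i : ℚ) / v i) ^ (t.2 : ℕ) =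
          (∑ t : J0, a t * (g t i : ℚ)) / ((y i : ℚ) ^ A * (v i : ℚ) ^ B) := by
        rw [Finset.sum_div]
        refine Finset.sum_congr rfl fun t _ => ?_
        have ht1 : (t.1 : ℕ) ≤ A := Nat.lt_succ_iff.1 t.1.isLt
        have ht2 : (t.2 : ℕ) ≤ B := Nat.lt_succ_iff.1 t.2.isLt
        simp only [g]
        push_cast
        rw [eq_div_iff (by positivity), div_pow, div_pow]
        have e1 : (y i : ℚ) ^ A = (y i : ℚ) ^ (t.1 : ℕ) * (y i : ℚ) ^ (A - t.1) := by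
          rw [← pow_add, Nat.add_sub_cancel' ht1]
        have e2 : (v i : ℚ) ^ B = (v i : ℚ) ^ (t.2 : ℕ) * (v i : ℚ) ^ (B - t.2) := by
          rw [← pow_add, Nat.add_sub_cancel' ht2]
        rw [e1, e2]
        field_simp
      rw [h2, h1, zero_div]
  -- the integer matrix
  let e : Fin T ≃ J0 := (finProdFinEquiv (m := A + 1) (n := B + 1)).symm
  let N : Matrix (Fin T) (Fin T) ℤ := Matrix.of fun r t => g (e t) (s (e r)).1
  have hN : N.det ≠ 0 := by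
    intro h0
    apply hs
    have h1 : (Matrix.of fun i j => (g j (s i).1 : ℚ)).det = ((Matrix.of fun i j => (g j (s i).1 : ℚ)).submatrix e e).det :=
      (Matrix.det_submatrix_equiv_self e _).symm
    have h2 : (Matrix.of fun i j => (g j (s i).1 : ℚ)).submatrix e e = N.map (Int.cast : ℤ → ℚ) := by
      ext r t
      rfl
    rw [h1, h2, ← Int.cast_det, h0, Int.cast_zero]
  have hTpos : 0 < T := by positivity
  let r0 : ι := (s (e ⟨0, hTpos⟩)).1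
  have hr0 : r0 ∈ U := (s (e ⟨0, hTpos⟩)).2
  have hPT : (P : ZMod (P ^ T)) ^ T = 0 := by rw [← Nat.cast_pow, ZMod.natCast_self]
  have cop : ∀ {n : ℕ}, n.Coprime P → IsCoprime (n : ℤ) (P : ℤ) := fun h => Nat.isCoprime_iff_coprime.2 h
  have hyinv : ∀ i ∈ U, ∃ b : ZMod (P ^ T), (y i : ZMod (P ^ T)) * b = 1 := by
    intro i hi
    obtain ⟨b, hb⟩ := exists_inv (T := T) (cop (hy i hi))
    exact ⟨b, by exact_mod_cast hb⟩
  obtain ⟨x0', hx0'⟩ := exists_inv (T := T) (cop (hx r0 hr0))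
  obtain ⟨q1', hq1'⟩ := exists_inv (T := T) hq1
  have hx0'' : (x r0 : ZMod (P ^ T)) * x0' = 1 := by exact_mod_cast hx0'
  choose y' hy' using hyinv
  have hz : ∀ i ∈ U, ∃ z : ℤ, (x i : ℤ) * y r0 - x r0 * y i = P * z := fun i hi => hcl i hi r0 hr0
  choose z hz using hz
  have hdvd := pow_dvd_det_zmod P N
    (fun r j => (y (s (e r)).1 : ZMod (P ^ T)) ^ A * (v (s (e r)).1 : ZMod (P ^ T)) ^ B *
      ((z _ (s (e r)).2 : ZMod (P ^ T)) * x0' * y' _ (s (e r)).2) ^ (j : ℕ))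
    (fun j t => (((q0 : ZMod (P ^ T)) * q1') ^ ((e t).2 : ℕ) * ((x r0 : ZMod (P ^ T)) * y' r0 hr0) ^
      (((e t).1 : ℕ) + k * (e t).2) * ((((e t).1 : ℕ) + k * (e t).2).choose j : ZMod (P ^ T))))
    fun r t => by
      have hi := (s (e r)).2
      set i := (s (e r)).1 with hidef
      have h1 : (N r t : ZMod (P ^ T)) = (x i : ZMod (P ^ T)) ^ ((e t).1 : ℕ) * (y i : ZMod (P ^ T)) ^ (A - (e t).1) *
          (u i : ZMod (P ^ T)) ^ ((e t).2 : ℕ) * (v i : ZMod (P ^ T)) ^ (B - (e t).2) := by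
        simp only [N, g, Matrix.of_apply]
        push_cast
        rfl
      rw [h1]
      refine entry_eq (Nat.lt_succ_iff.1 (e t).1.isLt) (Nat.lt_succ_iff.1 (e t).2.isLt) hPT (hy' i hi) hq1' hx0''
        (hy' r0 hr0) ?_ ?_
      · have h2 : ((P ^ T : ℕ) : ℤ) ∣ (x i : ℤ) ^ k * v i * q0 - (y i : ℤ) ^ k * u i * q1 := by
          rw [Nat.cast_pow]
          exact (pow_dvd_pow _ hTJ).trans (hc i hi)
        rw [← ZMod.intCast_zmod_eq_zero_iff_dvd] at h2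
        push_cast at h2
        exact sub_eq_zero.1 h2
      · have h2 := congrArg (Int.cast : ℤ → ZMod (P ^ T)) (hz i hi)
        push_cast at h2
        exact h2
  -- the size
  have hbd : |N.det| ≤ (T.factorial * (E1 ^ A * E2 ^ B) ^ T : ℕ) := by
    have h1 := Matrix.det_le (A := N) (abv := AbsoluteValue.abs) (x := ((E1 ^ A * E2 ^ B : ℕ) : ℤ)) fun r t => by
      have hi := (s (e r)).2
      set i := (s (e r)).1 with hidef
      show |N r t| ≤ _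
      have h2 : N r t = ((x i ^ ((e t).1 : ℕ) * y i ^ (A - (e t).1) * u i ^ ((e t).2 : ℕ) * v i ^ (B - (e t).2) : ℕ) : ℤ) := by
        simp only [N, g, Matrix.of_apply]
        push_cast
        rfl
      rw [h2, Nat.abs_cast]
      have ht1 : ((e t).1 : ℕ) ≤ A := Nat.lt_succ_iff.1 (e t).1.isLt
      have ht2 : ((e t).2 : ℕ) ≤ B := Nat.lt_succ_iff.1 (e t).2.isLt
      have h3 : x i ^ ((e t).1 : ℕ) * y i ^ (A - (e t).1) ≤ E1 ^ A := by
        calc x i ^ ((e t).1 : ℕ) * y i ^ (A - (e t).1) ≤ E1 ^ ((e t).1 : ℕ) * E1 ^ (A - (e t).1) :=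
              Nat.mul_le_mul (Nat.pow_le_pow_left (b1 i hi) _) (Nat.pow_le_pow_left (b2 i hi) _)
          _ = E1 ^ A := by rw [← pow_add, Nat.add_sub_cancel' ht1]
      have h4 : u i ^ ((e t).2 : ℕ) * v i ^ (B - (e t).2) ≤ E2 ^ B := by
        calc u i ^ ((e t).2 : ℕ) * v i ^ (B - (e t).2) ≤ E2 ^ ((e t).2 : ℕ) * E2 ^ (B - (e t).2) :=
              Nat.mul_le_mul (Nat.pow_le_pow_left (b3 i hi) _) (Nat.pow_le_pow_left (b4 i hi) _)
          _ = E2 ^ B := by rw [← pow_add, Nat.add_sub_cancel' ht2]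
      have h5 : x i ^ ((e t).1 : ℕ) * y i ^ (A - (e t).1) * u i ^ ((e t).2 : ℕ) * v i ^ (B - (e t).2) ≤
          E1 ^ A * E2 ^ B := by
        rw [mul_assoc]
        exact Nat.mul_le_mul h3 h4
      exact_mod_cast h5
    rw [Fintype.card_fin] at h1
    have h3 : AbsoluteValue.abs N.det = |N.det| := rfl
    rw [h3, nsmul_eq_mul] at h1
    push_cast at h1 ⊢
    exact h1
  have h6 := Int.le_of_dvd (abs_pos.2 hN) ((dvd_abs _ _).2 hdvd)
  have h7 : ((P ^ (∑ i ∈ range T, i) : ℕ) : ℤ) ≤ (T.factorial * (E1 ^ A * E2 ^ B) ^ T : ℕ) := by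
    rw [Nat.cast_pow]
    exact h6.trans hbd
  have h8 : P ^ (∑ i ∈ range T, i) ≤ T.factorial * (E1 ^ A * E2 ^ B) ^ T := by exact_mod_cast h7
  omega

end Pool.Agent.Helper92.RZ
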